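import Pool.Agent.V11291.MR.Rep
import Pool.Agent.Results.MP_009fd8_ag.LayersProducts

/-!
# All the irreducible representations of the Galois groups of `F = K(√d : d ∈ S)` in the points of the
# quadratic twists of `X_0(14)`

Let `E_D` be the quadratic twists of `X_0(14)`, an elliptic curve without complex multiplication with
one rational point of order two, for the `D` of the class `Adm`: squarefree, positive or negative, `1`
modulo `4`, squares modulo `7`, whose prime divisors split completely in `ℚ(i, √2, √-7)` or are inert in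
`ℚ(√2)` and in `ℚ(√-7)`, and are inert in the cyclotomic `ℤ₃`-extension.  Let `S` be any finite subset of
the class, independent modulo squares, `K` a layer of the cyclotomic `ℤ₃`-extension, and
`F = K(√d : d ∈ S)`, of degree `2^#S [K : ℚ]`.

(1) For ALL `D` of the class `m_ρ(E_D) = 0` for all the irreducible `ρ` of `Gal(F/ℚ)` with `ρ(τ²) ≠ 1` for
some `τ`, in particular for all the `ρ` which are not self-dual.
(2) For the `D` of the class in a subset of proportion exactly `c^(2^#S)`,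
`c = ∏_{i ≥ 0} (1 - 2^{-(2 i + 1)}) = 0.419...`, `m_ρ(E_D) = 0` for all the `ρ` of `Gal(F/ℚ)` and all the
layers `K`.
-/

set_option autoImplicit false

open NumberField IsDedekindDomain Filter Topology

namespace Pool.Agent.Results.MP_775b3b_nt.MultiquadraticConstituents

open scoped Classical

open Pool.Agent.V11291.MR (act Homs Irr)

open Pool.Agent.Results.MP_787500_nt.LayersBlochKatoLaw (E base rank twist multiquadratic
  cyclotomic Adm Small count cc Proportion Many adm_iff mat_eq small_iff)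

open Pool.Agent.Results.MP_0b9e0b_ag.MultiquadraticProducts (IsBase IsFamily Criterion cl_iff)

/-- `m_ρ(W) = 0` for the representation `ρ` of the Galois group of `L / ℚ` on `V`: the only linear map
`f : V → ℂ ⊗ W(L)` with `f (ρ(σ) v) = σ (f v)` for all `σ`, `v` is zero. -/
def Mult0 (W : WeierstrassCurve ℤ) {L : Type} [Field L] [NumberField L] {V : Type} [AddCommGroup V]
    [Module ℂ V] (ρ : (L ≃ₐ[ℚ] L) →* (V →ₗ[ℂ] V)) : Prop :=
  ∀ f : V →ₗ[ℂ] (TensorProduct ℤ ℂ (base W L).toAffine.Point),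
    (∀ (σ : L ≃ₐ[ℚ] L) (v : V), f (ρ σ v) = act W σ (f v)) → f = 0

/-- For all the layers `K` of the cyclotomic `ℤ₃`-extension and `F = K(√d : d ∈ S)`, a field of degree
`2^#S [K : ℚ]`: `m_ρ(E_D) = 0` for all the irreducible complex representations `ρ` of `Gal(F/ℚ)` such that
`ρ(τ²) ≠ 1` for some `τ`. -/
def NonQuadratic (S : Finset ℤ) (D : ℤ) : Prop :=
  ∀ (m : ℕ) (K F : IntermediateField ℚ ℂ) [NumberField K] [NumberField F],
    K ≤ cyclotomic (3 ^ (m + 1)) → Odd (Module.finrank ℚ K) → F = multiquadratic S ⊔ K →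
    Module.finrank ℚ F = 2 ^ S.card * Module.finrank ℚ K ∧
    ∀ (V : Type) [AddCommGroup V] [Module ℂ V] (ρ : (F ≃ₐ[ℚ] F) →* (V →ₗ[ℂ] V)), Irr ρ →
      (∃ τ, ρ (τ * τ) ≠ 1) → Mult0 (twist D) ρ

/-- For all the layers `K` of the cyclotomic `ℤ₃`-extension and `F = K(√d : d ∈ S)`: `m_ρ(E_D) = 0` for all
the complex representations `ρ` of `Gal(F/ℚ)`. -/
def AllRep (S : Finset ℤ) (D : ℤ) : Prop :=
  ∀ (m : ℕ) (K F : IntermediateField ℚ ℂ) [NumberField K] [NumberField F],
    K ≤ cyclotomic (3 ^ (m + 1)) → Odd (Module.finrank ℚ K) → F = multiquadratic S ⊔ K →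
    ∀ (V : Type) [AddCommGroup V] [Module ℂ V] (ρ : (F ≃ₐ[ℚ] F) →* (V →ₗ[ℂ] V)), Mult0 (twist D) ρ

lemma mult0_of {W : WeierstrassCurve ℤ} {L : Type} [Field L] [NumberField L] {V : Type}
    [AddCommGroup V] [Module ℂ V] {ρ : (L ≃ₐ[ℚ] L) →* (V →ₗ[ℂ] V)} (h : Homs W ρ = ⊥) :
    Mult0 W ρ := by
  intro f hf
  have h1 : f ∈ Homs W ρ := hf
  rw [h] at h1
  exact h1

/-- the rank over `F` and over the multiquadratic field -/
lemma rank_F {S : Finset ℤ} (hS : ∀ d ∈ S, Adm d) {D : ℤ} (hD : Adm D) (m : ℕ)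
    (K F F₀ : IntermediateField ℚ ℂ) [NumberField K] [NumberField F] [NumberField F₀]
    (hK : K ≤ cyclotomic (3 ^ (m + 1))) (hodd : Odd (Module.finrank ℚ K))
    (hF₀ : F₀ = multiquadratic S) (hF : F = F₀ ⊔ K) :
    Pool.Agent.Y682.XF.rank F (twist D) = Pool.Agent.Y682.XF.rank F₀ (twist D) := by
  have P := Pool.Agent.Y682.YS.partsD
  obtain ⟨K₁, ⟨e⟩⟩ := Pool.Agent.Y682.YS.layer_iso m K hK
  have hz : NeZero (3 ^ (m + 1)) := ⟨pow_ne_zero _ (by norm_num)⟩
  have hc : IsCyclotomicExtension {3 ^ (m + 1)} ℚ (CyclotomicField (3 ^ (m + 1)) ℚ) :=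
    CyclotomicField.isCyclotomicExtension (3 ^ (m + 1)) ℚ
  have hodd1 : Odd (Module.finrank ℚ K₁) := by
    rw [← e.toLinearEquiv.finrank_eq]
    exact hodd
  obtain ⟨h2, h7, hN⟩ := Pool.Agent.Y682.XD.three_hyp m _ K₁ hodd1
  have hreal : ∀ w : InfinitePlace K₁, w.IsReal := by
    obtain ⟨φ', -⟩ := Pool.Agent.Y682.XT.exists_phi (3 ^ (m + 1)) (CyclotomicField (3 ^ (m + 1)) ℚ)
    exact Pool.Agent.Y682.XT.real_place (q := 3 ^ (m + 1)) (φ := φ')
      (Pool.Agent.Y682.XT.re_of_odd hodd1)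
  have hone : ∀ d : ℤ, Adm d → Odd d ∧ Pool.Agent.Y682.XD.OneP K₁ d := by
    intro d hd
    refine ⟨Int.odd_iff.2 (by have := hd.2.1; omega), fun p hp hpd v w hv hw => ?_⟩
    obtain ⟨u, -, hu⟩ := Pool.Agent.Y682.XT.place_unique hp
      (Pool.Agent.Y682.YQ.inert9 m _ K₁ hodd1 hp (((adm_iff d).1 hd).2 p hp hpd))
    rw [(hu v).1 hv, (hu w).1 hw]
  have key := (Pool.Agent.Y682.XD.rank_stable P.qf P.deg2 P.sup P.tw P.rke K K₁ e.toRingEquiv hreal
    hN hodd1 hodd (by exact_mod_cast h2) (by exact_mod_cast h7) S (fun d hd => hone d (hS d hd))).2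
    F₀ F hF₀ hF D (hone D hD).1 (hone D hD).2
  have e1 := (Pool.Agent.Y682.XF.trans_D F hD.2.1).1
  have e2 := (Pool.Agent.Y682.XF.trans_D F₀ hD.2.1).1
  exact e1.trans (key.trans e2.symm)

/-- the squares act trivially on the multiquadratic field -/
lemma sq_fix {S : Finset ℤ} {F F₀ : IntermediateField ℚ ℂ} (hF₀ : F₀ = multiquadratic S)
    (hle : F₀ ≤ F) (τ : F ≃ₐ[ℚ] F) (x : F₀) :
    (τ * τ) (IntermediateField.inclusion hle x) = IntermediateField.inclusion hle x := by
  have key : (F.val.comp ((τ * τ : F ≃ₐ[ℚ] F) : F →ₐ[ℚ] F)).comp (IntermediateField.inclusion hle) =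
      F.val.comp (IntermediateField.inclusion hle) := by
    refine IntermediateField.algHom_ext_of_eq_adjoin ℚ (S := F₀)
      (s := {z : ℂ | ∃ d ∈ S, z ^ 2 = (d : ℂ)}) hF₀ fun z hz => ?_
    obtain ⟨d, hd, hz2⟩ := hz
    have hzF₀ : z ∈ F₀ := by
      rw [hF₀]
      exact IntermediateField.subset_adjoin ℚ _ ⟨d, hd, hz2⟩
    obtain ⟨y, hy⟩ : ∃ y : F, y = IntermediateField.inclusion hle ⟨z, hzF₀⟩ := ⟨_, rfl⟩
    have hyz : (y : ℂ) = z := by rw [hy]; rfl
    have hy2 : y * y = (d : F) := by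
      apply Subtype.ext
      show (y : ℂ) * (y : ℂ) = ((d : F) : ℂ)
      rw [hyz, ← sq, hz2]
      exact (map_intCast (algebraMap F ℂ) d).symm
    have h1 : τ y * τ y = (d : F) := by rw [← map_mul, hy2, map_intCast]
    have h2 : τ (τ y) = y := by
      have h3 : (τ y - y) * (τ y + y) = 0 := by linear_combination h1 - hy2
      rcases mul_eq_zero.1 h3 with h | h
      · have h4 : τ y = y := by linear_combination h
        rw [h4, h4]
      · have h4 : τ y = -y := by linear_combination h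
        rw [h4, map_neg, h4, neg_neg]
    show ((τ (τ (IntermediateField.inclusion hle ⟨z, hzF₀⟩)) : F) : ℂ) =
      ((IntermediateField.inclusion hle ⟨z, hzF₀⟩ : F) : ℂ)
    rw [← hy, h2]
  apply Subtype.ext
  exact DFunLike.congr_fun key x

theorem partC {S : Finset ℤ} (hS : IsBase S) {D : ℤ} (hD : Adm D) : NonQuadratic S D := by
  intro m K F _ _ hK hodd hF
  have hS' : ∀ d ∈ S, Pool.Agent.V11291.RG.Cl d := fun d hd => (cl_iff d).1 (hS.1 d hd)
  have hfd : FiniteDimensional ℚ (Pool.Agent.Y682.XD.mq S) :=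
    (Pool.Agent.V11291.RG.rr_sub S fun d hd => (hS' d hd).1.1.ne_zero).1
  have hN : NumberField (Pool.Agent.Y682.XD.mq S) :=
    { to_charZero := inferInstance, to_finiteDimensional := hfd }
  obtain ⟨d, hinj, himg⟩ := Pool.Agent.V11291.RG.enum S
  have hdS : ∀ i, d i ∈ S := fun i => by
    have h := Finset.mem_image_of_mem d (Finset.mem_univ i)
    rwa [himg] at h
  have hdeg := Pool.Agent.V11291.JH.finrank_sup d (fun i => (hS' _ (hdS i)).1.1.ne_zero)
    (Pool.Agent.V11291.RG.ind_of hinj himg hS.2) (Pool.Agent.Y682.XD.mq S) K F hodd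
    (Pool.Agent.V11291.RG.mq_eq himg) hF
  refine ⟨hdeg, fun V _ _ ρ hρ h => ?_⟩
  obtain ⟨τ, hτ⟩ := h
  have hle : Pool.Agent.Y682.XD.mq S ≤ F := by rw [hF]; exact le_sup_left
  refine mult0_of (Pool.Agent.V11291.MR.homs_bot (twist D)
    (IntermediateField.inclusion hle).toRingHom (Pool.Agent.Y682.YQ.wm_ne hD.2.1)
    (rank_F hS.1 hD m K F (Pool.Agent.Y682.XD.mq S) hK hodd rfl hF) hρ (τ * τ) (fun x => ?_) hτ)
  exact sq_fix rfl hle τ x

theorem partD {S : Finset ℤ} (hS : IsBase S) {D : ℤ} (hD : Adm D) (hc : Criterion {1} S D) :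
    AllRep S D := by
  intro m K F _ _ hK hodd hF
  have hS' : ∀ d ∈ S, Pool.Agent.V11291.RG.Cl d := fun d hd => (cl_iff d).1 (hS.1 d hd)
  have hgood : Pool.Agent.Results.MP_009fd8_ag.LayersProducts.Good {D} S := by
    refine ⟨fun x hx => by rwa [Finset.mem_singleton.1 hx], fun x hx U hU D' k hD' hk => ?_⟩
    rw [Finset.mem_singleton.1 hx] at hk
    refine hc 1 (Finset.mem_singleton_self 1) U hU D' k hD' ?_
    rw [one_mul]
    exact hk
  intro V _ _ ρ
  have hr : Pool.Agent.Y682.XF.rank F (twist D) = 0 := by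
    have h12 := (Pool.Agent.Y682.XF.trans_D F hD.2.1).1
    refine h12.trans ?_
    refine (Pool.Agent.V11291.RG.rr_subK K S fun d hd => (hS' d hd).1.1.ne_zero).2 F hF D
      ((adm_iff D).1 hD).1.1.ne_zero fun U hU => ?_
    obtain ⟨C₁, j₁, g1, g2, g3, g4⟩ := Pool.Agent.V11291.JH.prodS (S := U)
      fun d hd => ⟨(hS' d (hU hd)).1, (hS' d (hU hd)).2⟩
    obtain ⟨C, j, k1, k2, k3, k4, -⟩ := Pool.Agent.Y682.YS.mulD ((adm_iff D).1 hD).1
      ((adm_iff D).1 hD).2 g1 g2
    have e1 : D * ∏ d ∈ U, d = C * (j * j₁) ^ 2 := by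
      rw [g4, ← mul_assoc, k4]
      ring
    rw [e1]
    exact Pool.Agent.V11291.RG.rr_goodK m K hK hodd k1 k2
      ((Pool.Agent.Results.MP_009fd8_ag.LayersProducts.good_iff hS hgood.1).1 hgood D
        (Finset.mem_singleton_self D) U hU C (j * j₁) k1 e1) (mul_ne_zero k3 g3)
  exact mult0_of (Pool.Agent.V11291.MR.homs_zero (twist D) (Pool.Agent.Y682.YQ.wm_ne hD.2.1) hr ρ)

/-- **Main theorem.**
Let `S` be a finite subset of the class, independent modulo squares.  For all the `D` of the class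
`NonQuadratic S D` holds.  If for the squarefree parts `D'` of the products of `D` and the elements of a
subset of `S` the rank of `E_{D'}` is zero and `Ш(E_{D'})[2] = 0`, over all the layers `K`
(`Criterion {1} S D`), then `AllRep S D` holds.  The proportion of these `D` is exactly `c^(2^#S)`, among
the positive `D` of the class, ordered by absolute value, and also among the negative ones;
`0.4194 < c < 0.4195`. -/
theorem result :
    (∀ S : Finset ℤ, IsBase S → (∀ D : ℤ, Adm D → NonQuadratic S D) ∧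
      (∀ D : ℤ, Adm D → Criterion {1} S D → AllRep S D) ∧
      ∀ s : ℤ, (s = 1 ∨ s = -1) → Many s ∧ Proportion (Criterion {1} S) s (cc ^ (2 ^ S.card))) ∧
    (0.4194 < cc ∧ cc < 0.4195) := by
  refine ⟨fun S hS => ⟨fun D hD => partC hS hD, fun D hD hc =>
    partD hS hD hc, fun s hs => ?_⟩, Pool.Agent.Y948.CQ.t_C2.2.2.2⟩
  obtain ⟨h1, h2⟩ := Pool.Agent.Results.MP_0b9e0b_ag.MultiquadraticProducts.result.2.1 s hs
  have hone : Adm 1 := (adm_iff 1).2 ⟨Pool.Agent.Y682.YS.oneD.1, Pool.Agent.Y682.YS.oneD.2⟩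
  have h3 := h2 S {1} hS ⟨fun b hb => by rw [Finset.mem_singleton.1 hb]; exact hone,
    fun b hb b' hb' hne => absurd ((Finset.mem_singleton.1 hb).trans
      (Finset.mem_singleton.1 hb').symm) hne⟩
  rw [Finset.card_singleton, one_mul] at h3
  exact ⟨h1, h3⟩

end Pool.Agent.Results.MP_775b3b_nt.MultiquadraticConstituents
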