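import Pool.Agent.V11291.MR.Rep
import Pool.Agent.Results.MP_78d38b_nt.TwoTorsionStability

/-!
# The constituents of permutation representations in the points of elliptic curves with a rational
# point of order two

(A) Let `L/ℚ` be a finite Galois extension with group `G`, and let `K ⊆ L` be a totally real subfield of
odd degree and odd narrow class number in which `2` is inert (`K` need not be Galois over `ℚ`).  Then
`m_ρ(E) = 0` for all the nontrivial irreducible constituents `ρ` of the permutation representation of `G`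
on `G/Gal(L/K)`, and for ALL the elliptic curves `E : y² = x³ + A x² + B x` over `ℚ` with opposite types
of the isogeny with kernel `(0, 0)` at `∞` and at `2`, of any rank, that satisfy a condition at the bad
primes (for example there is only one place of `K` above each bad prime).

(B) This holds for all the layers `L = K` of the cyclotomic `ℤ₃`-extension of `ℚ`, without an assumption
on `K`, if the bad primes are `3` or `2, 4, 5, 7` modulo `9`.

The representation-theoretic part of the proof: if the ranks over `K` and over `ℚ` are the same, the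
vectors of `ℂ ⊗ E(L)` fixed by `Gal(L/K)` are fixed by `Gal(L/ℚ)` (`Pool.Agent.V11291.MR`).
-/

set_option autoImplicit false

open NumberField IsDedekindDomain

namespace Pool.Agent.Results.MP_775b3b_nt.PermutationConstituents

open scoped Classical

open Pool.Agent.Y682 (NCl)

open Pool.Agent.V11291.MR (act Homs Irr)

open Pool.Agent.Y682.XF (base)

open Pool.Agent.Results.MP_78d38b_nt.TwoTorsionStability (Pair Exc AtBad Stable)

/-- The curve `y² = x³ + A x² + B x`. -/
def cur (A B : ℤ) : WeierstrassCurve ℤ := ⟨0, A, 0, B, 0⟩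

/-- `m_ρ(W) = 0` for the representation `ρ` of the Galois group of `L / ℚ` on `V`: the only linear map
`f : V → ℂ ⊗ W(L)` with `f (ρ(σ) v) = σ (f v)` for all `σ`, `v` is zero. -/
def Mult0 (W : WeierstrassCurve ℤ) {L : Type} [Field L] [NumberField L] {V : Type} [AddCommGroup V]
    [Module ℂ V] (ρ : (L ≃ₐ[ℚ] L) →* (V →ₗ[ℂ] V)) : Prop :=
  ∀ f : V →ₗ[ℂ] (TensorProduct ℤ ℂ (base W L).toAffine.Point),
    (∀ (σ : L ≃ₐ[ℚ] L) (v : V), f (ρ σ v) = act W σ (f v)) → f = 0

/-- `v` is fixed by the automorphisms which fix the elements of `K`. -/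
def FixedBy {L : Type} [Field L] [NumberField L] (K : IntermediateField ℚ L) {V : Type}
    [AddCommGroup V] [Module ℂ V] (ρ : (L ≃ₐ[ℚ] L) →* (V →ₗ[ℂ] V)) (v : V) : Prop :=
  ∀ σ : L ≃ₐ[ℚ] L, (∀ x ∈ K, σ x = x) → ρ σ v = v

/-- `m_ρ(W) = 0` for all the nontrivial irreducible complex representations `ρ` of `Gal(L/ℚ)` with a
nonzero vector fixed by `Gal(L/K)`. -/
def Vanishing (W : WeierstrassCurve ℤ) (L : Type) [Field L] [NumberField L]
    (K : IntermediateField ℚ L) : Prop :=
  ∀ (V : Type) [AddCommGroup V] [Module ℂ V] (ρ : (L ≃ₐ[ℚ] L) →* (V →ₗ[ℂ] V)), Irr ρ → ρ ≠ 1 →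
    ∀ v : V, v ≠ 0 → FixedBy K ρ v → Mult0 W ρ

/-- `m_ρ(W) = 0` for all the nontrivial irreducible complex representations `ρ` of `Gal(K/ℚ)`. -/
def AllVanish (W : WeierstrassCurve ℤ) (K : Type) [Field K] [NumberField K] : Prop :=
  ∀ (V : Type) [AddCommGroup V] [Module ℂ V] (ρ : (K ≃ₐ[ℚ] K) →* (V →ₗ[ℂ] V)), Irr ρ → ρ ≠ 1 →
    Mult0 W ρ

lemma mult0_of {W : WeierstrassCurve ℤ} {L : Type} [Field L] [NumberField L] {V : Type}
    [AddCommGroup V] [Module ℂ V] {ρ : (L ≃ₐ[ℚ] L) →* (V →ₗ[ℂ] V)} (h : Homs W ρ = ⊥) :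
    Mult0 W ρ := by
  intro f hf
  have h1 : f ∈ Homs W ρ := hf
  rw [h] at h1
  exact h1

lemma cur_disc {A B : ℤ} (hB : B ≠ 0) (hD : A ^ 2 ≠ 4 * B) : (cur A B).Δ ≠ 0 := by
  have h1 : (cur A B).Δ = 16 * B ^ 2 * (A ^ 2 - 4 * B) := by
    unfold cur WeierstrassCurve.Δ WeierstrassCurve.b₂ WeierstrassCurve.b₄ WeierstrassCurve.b₆
      WeierstrassCurve.b₈
    ring
  rw [h1]
  exact mul_ne_zero (mul_ne_zero (by norm_num) (pow_ne_zero 2 hB)) (sub_ne_zero.2 hD)

lemma base_cur (A B : ℤ) (K : Type) [Field K] :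
    base (cur A B) K = (⟨0, A, 0, B, 0⟩ : WeierstrassCurve K) := by
  unfold cur
  ext <;> simp [WeierstrassCurve.map]

lemma rank_cur {K : Type} [Field K] [NumberField K] {A B : ℤ} (h : Stable K A B) :
    Pool.Agent.Y682.XF.rank K (cur A B) = Pool.Agent.Y682.XF.rank ℚ (cur A B) := by
  have h1 : ∀ (F : Type) [Field F] [NumberField F], Pool.Agent.Y682.XF.rank F (cur A B) =
      Pool.Agent.TH841.NF.D.rk (⟨0, A, 0, B, 0⟩ : WeierstrassCurve F) := by
    intro F _ _
    rw [← base_cur A B F]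
    rfl
  have h2 : Pool.Agent.TH841.NF.D.rk (⟨0, A, 0, B, 0⟩ : WeierstrassCurve ℚ) =
      Pool.Agent.TH841.SH.D.rk (⟨0, A, 0, B, 0⟩ : WeierstrassCurve ℚ) := by
    unfold Pool.Agent.TH841.SH.D.rk Pool.Agent.TH841.NF.D.rk
    have h3 : Classical.decEq ℚ = instDecidableEqRat := Subsingleton.elim _ _
    rw [h3]
  rw [h1, h1, h2]
  exact h.2

theorem partA {L : Type} [Field L] [NumberField L] [IsGalois ℚ L] (K : IntermediateField ℚ L)
    {A B : ℤ} (hP : Pair A B) (h : Stable K A B) {V : Type} [AddCommGroup V] [Module ℂ V]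
    {ρ : (L ≃ₐ[ℚ] L) →* (V →ₗ[ℂ] V)} (hρ : Irr ρ) (hnt : ρ ≠ 1) {v : V} (hv0 : v ≠ 0)
    (hv : FixedBy K ρ v) : Mult0 (cur A B) ρ := by
  refine mult0_of (Pool.Agent.V11291.MR.homs_perm (cur A B) (algebraMap K L) (algebraMap ℚ K)
    (fun x hx => ?_) (cur_disc hP.1 hP.2.1) (rank_cur h) (fun τ x => ?_) hρ hnt hv0
    (fun σ hσ => hv σ fun x hx => hσ ⟨x, hx⟩))
  · have h1 : x ∈ K := by
      rw [← IsGalois.fixedField_fixingSubgroup K]
      rw [IntermediateField.mem_fixedField_iff]
      intro σ hσ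
      exact hx σ fun y => (IntermediateField.mem_fixingSubgroup_iff K σ).1 hσ y y.2
    exact ⟨⟨x, h1⟩, rfl⟩
  · have h1 : (algebraMap K L) ((algebraMap ℚ K) x) = algebraMap ℚ L x := rfl
    rw [h1]
    exact τ.commutes x

theorem partB {K : Type} [Field K] [NumberField K] {A B : ℤ} (hP : Pair A B) (h : Stable K A B)
    {V : Type} [AddCommGroup V] [Module ℂ V] {ρ : (K ≃ₐ[ℚ] K) →* (V →ₗ[ℂ] V)} (hρ : Irr ρ)
    (hnt : ρ ≠ 1) : Mult0 (cur A B) ρ := by
  obtain ⟨σ, hσ⟩ : ∃ σ, ρ σ ≠ 1 := by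
    by_contra hcon
    push Not at hcon
    exact hnt (MonoidHom.ext hcon)
  exact mult0_of (Pool.Agent.V11291.MR.homs_bot (cur A B) (algebraMap ℚ K) (cur_disc hP.1 hP.2.1)
    (rank_cur h) hρ σ (fun x => σ.commutes x) hσ)

/-- **Main theorem.**
(A) Let `L` be a finite Galois extension of `ℚ` and `K` a totally real subfield of odd degree and odd
narrow class number such that the ideal `(2)` of its ring of integers is prime.  Let `A`, `B` be the
coefficients of a curve `E : y² = x³ + A x² + B x` with opposite types at `∞` and at `2` (`Pair`), not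
exceptional at `2` if `3` divides the degree of `K`, such that the condition `AtBad` holds at the bad
primes.  Then `m_ρ(E) = 0` for all the nontrivial irreducible complex representations `ρ` of `Gal(L/ℚ)`
with a nonzero vector fixed by `Gal(L/K)`.
(B) Let `K` be a layer of the cyclotomic `ℤ₃`-extension (a subfield of odd degree of a `3 ^ (n + 1)`-th
cyclotomic field), and let `A`, `B` be the coefficients of a curve with opposite types at `∞` and at `2`,
not exceptional at `2`, with bad primes `3` or `2, 4, 5, 7` modulo `9`.  Then `m_ρ(E) = 0` for all the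
nontrivial irreducible representations `ρ` of `Gal(K/ℚ)`. -/
theorem result :
    (∀ (L : Type) [Field L] [NumberField L] [IsGalois ℚ L] (K : IntermediateField ℚ L)
      [IsTotallyReal K], Odd (Module.finrank ℚ K) → Odd (Nat.card (NCl K)) →
      (Ideal.span {(2 : 𝓞 K)}).IsPrime → ∀ A B : ℤ, Pair A B →
      (3 ∣ Module.finrank ℚ K → ¬ Exc A B) →
      (∀ p : ℕ, p.Prime → (p : ℤ) ∣ B * (A ^ 2 - 4 * B) → AtBad K A B p) →
      Vanishing (cur A B) L K) ∧
    (∀ (n : ℕ) (M : Type) [Field M] [NumberField M] [IsCyclotomicExtension {3 ^ (n + 1)} ℚ M]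
      (K : IntermediateField ℚ M), Odd (Module.finrank ℚ K) → ∀ A B : ℤ, Pair A B → ¬ Exc A B →
      (∀ p : ℕ, p.Prime → (p : ℤ) ∣ B * (A ^ 2 - 4 * B) →
        p = 3 ∨ p % 9 = 2 ∨ p % 9 = 4 ∨ p % 9 = 5 ∨ p % 9 = 7) →
      AllVanish (cur A B) K) := by
  refine ⟨fun L _ _ _ K _ hodd hN h2 A B hP h3 hbad V _ _ ρ hρ hnt v hv0 hv =>
    partA K hP (Pool.Agent.Results.MP_78d38b_nt.TwoTorsionStability.stable_of hodd hN h2 hP h3 hbad)
      hρ hnt hv0 hv, fun n M _ _ _ K hodd A B hP hE hbad V _ _ ρ hρ hnt =>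
    partB hP ((Pool.Agent.Results.MP_78d38b_nt.TwoTorsionStability.result A B hP).2 hE n M K hodd
      fun p hp hpd => ?_) hρ hnt⟩
  rcases hbad p hp hpd with h | h | h | h | h
  · exact Or.inl h
  · exact Or.inr (Or.inl h)
  · exact Or.inr (Or.inr (Or.inl h))
  · exact Or.inr (Or.inr (Or.inr (Or.inl h)))
  · exact Or.inr (Or.inr (Or.inr (Or.inr (Or.inl h))))

end Pool.Agent.Results.MP_775b3b_nt.PermutationConstituents
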